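import Pool.Agent.Y64.RR.Stm

/-!
# From Schur's identities to residue classes modulo five (RR-SCH2)
-/

set_option autoImplicit false

namespace Pool.Agent.Y240.RR

open Finset Pool.Agent.Y64.RR

lemma ee_add (x y : ℝ) : ee (x + y) = ee x * ee y := by
  unfold ee
  rw [← Complex.exp_add]
  congr 1
  push_cast
  ring

lemma ee_norm (x : ℝ) : ‖ee x‖ = 1 := by
  unfold ee
  rw [show (2 * Real.pi * x * Complex.I : ℂ) = ((2 * Real.pi * x : ℝ) : ℂ) * Complex.I by
    push_cast; ring]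
  exact Complex.norm_exp_ofReal_mul_I _

lemma ee_pow (t : ℝ) (n : ℕ) : ee t ^ n = ee (t * n) := by
  unfold ee
  rw [← Complex.exp_nat_mul]
  congr 1
  push_cast
  ring

lemma gb_big (x : ℂ) : ∀ n k : ℕ, n < k → gb x n k = 0
  | 0, 0, h => absurd h (lt_irrefl _)
  | 0, k + 1, _ => by simp [gb]
  | n + 1, 0, h => absurd h (by omega)
  | n + 1, k + 1, h => by
    rw [gb, gb_big x n (k + 1) (by omega), gb_big x n k (by omega)]
    simp

/-- The sums over a residue class modulo five, general linear term. -/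
noncomputable def SS (t : ℝ) (n : ℕ) (r : ℤ) (α : ℝ) : ℂ :=
  ∑ l ∈ (range (n + 1)).filter (fun l : ℕ => (l : ℤ) ≡ r [ZMOD 5]),
    ee (t * (2 * (l : ℝ) ^ 2 + α * l) / 5) * gb (ee t) n l

lemma SS_ZZ (t : ℝ) (m : ℕ) (r κ : ℤ) (α : ℝ) (h : α = κ - 2 * m) : SS t m r α = ZZ t m r κ := by
  unfold SS ZZ
  refine sum_congr rfl fun l _ => ?_
  rw [h]
  congr 3
  ring

/-- Schur's sum. -/
noncomputable def TT (t : ℝ) (n : ℕ) (a : ℤ) : ℂ :=
  ∑ k ∈ Finset.Icc (-(n : ℤ)) n, (-1 : ℂ) ^ k.natAbs * ee t ^ (k * (5 * k + 1 - 4 * a) / 2).toNat *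
    gbz (ee t) n ((n - 5 * k) / 2 + a)

lemma TT_part (t : ℝ) (n : ℕ) (hn : 1 ≤ n) (a : ℤ) (ha : a = 0 ∨ a = 1) (η : ℤ)
    (hη : η = 0 ∨ η = 1) :
    ‖∑ k ∈ (Finset.Icc (-(n : ℤ)) n).filter (fun k : ℤ => (n - 5 * k) % 2 = η),
      (-1 : ℂ) ^ k.natAbs * ee t ^ (k * (5 * k + 1 - 4 * a) / 2).toNat *
      gbz (ee t) n ((n - 5 * k) / 2 + a)‖ = ‖SS t n (3 * (n - η + 2 * a)) (2 * η - 1 - 2 * n)‖ := by
  have h1 : ∑ k ∈ (Finset.Icc (-(n : ℤ)) n).filter (fun k : ℤ => (n - 5 * k) % 2 = η ∧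
        0 ≤ (n - 5 * k) / 2 + a ∧ (n - 5 * k) / 2 + a ≤ n),
      (-1 : ℂ) ^ k.natAbs * ee t ^ (k * (5 * k + 1 - 4 * a) / 2).toNat *
      gbz (ee t) n ((n - 5 * k) / 2 + a) =
      ∑ k ∈ (Finset.Icc (-(n : ℤ)) n).filter (fun k : ℤ => (n - 5 * k) % 2 = η),
      (-1 : ℂ) ^ k.natAbs * ee t ^ (k * (5 * k + 1 - 4 * a) / 2).toNat *
      gbz (ee t) n ((n - 5 * k) / 2 + a) := by
    refine sum_subset ?_ ?_
    · intro k hk
      rw [mem_filter] at hk ⊢
      exact ⟨hk.1, hk.2.1⟩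
    · intro k hk hk'
      rw [mem_filter] at hk hk'
      have : gbz (ee t) n ((n - 5 * k) / 2 + a) = 0 := by
        unfold gbz
        split_ifs with h0
        · refine gb_big _ _ _ ?_
          by_contra h3
          exact hk' ⟨hk.1, hk.2, h0, by omega⟩
        · rfl
      rw [this, mul_zero]
  rw [← h1]
  have h2 : ∑ k ∈ (Finset.Icc (-(n : ℤ)) n).filter (fun k : ℤ => (n - 5 * k) % 2 = η ∧
        0 ≤ (n - 5 * k) / 2 + a ∧ (n - 5 * k) / 2 + a ≤ n),
      (-1 : ℂ) ^ k.natAbs * ee t ^ (k * (5 * k + 1 - 4 * a) / 2).toNat *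
      gbz (ee t) n ((n - 5 * k) / 2 + a) =
      ((-1 : ℂ) ^ (n + η.natAbs) * ee (t * (((n : ℝ) - η + 2 * a) ^ 2 +
        (1 - 4 * a) * ((n : ℝ) - η + 2 * a)) / 10)) *
        SS t n (3 * (n - η + 2 * a)) (2 * η - 1 - 2 * n) := by
    unfold SS
    rw [mul_sum]
    refine sum_nbij' (fun k : ℤ => ((n - 5 * k) / 2 + a).toNat)
      (fun l : ℕ => ((n : ℤ) - η + 2 * a - 2 * l) / 5) ?_ ?_ ?_ ?_ ?_
    · intro k hk
      rw [mem_filter, mem_Icc] at hk
      rw [mem_filter, mem_range]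
      obtain ⟨hk1, hk2, hk3, hk4⟩ := hk
      refine ⟨by omega, ?_⟩
      rw [Int.ModEq, Int.toNat_of_nonneg hk3]
      omega
    · intro l hl
      rw [mem_filter, mem_range, Int.ModEq] at hl
      rw [mem_filter, mem_Icc]
      obtain ⟨hl1, hl2⟩ := hl
      have : (5 : ℤ) ∣ ((n : ℤ) - η + 2 * a - 2 * l) := by omega
      obtain ⟨q, hq⟩ := this
      rw [hq, Int.mul_ediv_cancel_left _ (by norm_num)]
      refine ⟨by omega, by omega, by omega, by omega⟩
    · intro k hk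
      rw [mem_filter, mem_Icc] at hk
      obtain ⟨hk1, hk2, hk3, hk4⟩ := hk
      rw [Int.toNat_of_nonneg hk3]
      omega
    · intro l hl
      rw [mem_filter, mem_range, Int.ModEq] at hl
      obtain ⟨hl1, hl2⟩ := hl
      have : (5 : ℤ) ∣ ((n : ℤ) - η + 2 * a - 2 * l) := by omega
      obtain ⟨q, hq⟩ := this
      rw [hq, Int.mul_ediv_cancel_left _ (by norm_num)]
      omega
    · intro k hk
      rw [mem_filter, mem_Icc] at hk
      obtain ⟨hk1, hk2, hk3, hk4⟩ := hk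
      obtain ⟨l, hl⟩ := Int.eq_ofNat_of_zero_le hk3
      have hkl : 5 * k = n - η + 2 * a - 2 * l := by omega
      rw [hl, Int.toNat_natCast]
      have e1 : gbz (ee t) n (l : ℤ) = gb (ee t) n l := by
        unfold gbz
        rw [if_pos (by omega), Int.toNat_natCast]
      rw [e1, ← mul_assoc]
      congr 1
      have e2 : (-1 : ℂ) ^ k.natAbs = (-1 : ℂ) ^ (n + η.natAbs) := by
        rcases Nat.even_or_odd k.natAbs with h | h
        · have h' : Even (n + η.natAbs) := by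
            rw [Nat.even_iff] at h ⊢
            omega
          rw [h.neg_one_pow, h'.neg_one_pow]
        · have h' : Odd (n + η.natAbs) := by
            rw [Nat.odd_iff] at h ⊢
            omega
          rw [h.neg_one_pow, h'.neg_one_pow]
      have e3 : ee t ^ (k * (5 * k + 1 - 4 * a) / 2).toNat =
          ee (t * (((n : ℝ) - η + 2 * a) ^ 2 + (1 - 4 * a) * ((n : ℝ) - η + 2 * a)) / 10) *
          ee (t * (2 * (l : ℝ) ^ 2 + (2 * η - 1 - 2 * n) * l) / 5) := by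
        have hev : (2 : ℤ) ∣ k * (5 * k + 1 - 4 * a) := by
          rcases Int.even_or_odd k with h | h
          · exact (even_iff_two_dvd.1 h).mul_right _
          · refine Dvd.dvd.mul_left ?_ _
            obtain ⟨q, hq⟩ := h
            omega
        have hnn : 0 ≤ k * (5 * k + 1 - 4 * a) := by
          rcases lt_or_ge k 0 with h | h
          · refine mul_nonneg_of_nonpos_of_nonpos h.le (by omega)
          · rcases h.eq_or_lt with h | h
            · rw [← h, zero_mul]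
            · exact mul_nonneg h.le (by omega)
        obtain ⟨K, hK⟩ := hev
        have hK0 : 0 ≤ K := by omega
        rw [ee_pow, ← ee_add, hK, Int.mul_ediv_cancel_left _ (by norm_num)]
        have hc : ((K.toNat : ℕ) : ℝ) = (K : ℝ) := by
          have : ((K.toNat : ℕ) : ℤ) = K := Int.toNat_of_nonneg hK0
          exact_mod_cast this
        rw [hc]
        congr 1
        have hK' : (k : ℝ) * (5 * k + 1 - 4 * a) = 2 * K := by exact_mod_cast hK
        have hkl' : 5 * (k : ℝ) = n - η + 2 * a - 2 * l := by exact_mod_cast hkl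
        have hk' : (k : ℝ) = (n - η + 2 * a - 2 * l) / 5 := by linarith
        have hKK : (K : ℝ) = (k : ℝ) * (5 * k + 1 - 4 * a) / 2 := by linarith
        rw [hKK, hk']
        ring
      rw [e2, e3]
      ring
  rw [h2, norm_mul, norm_mul, norm_pow, norm_neg, norm_one, one_pow, ee_norm, one_mul, one_mul]

lemma TT_le (t : ℝ) (n : ℕ) (hn : 1 ≤ n) (a : ℤ) (ha : a = 0 ∨ a = 1) {D : ℝ}
    (h : ∀ (r η : ℤ), (η = 0 ∨ η = 1) → ‖SS t n r (2 * η - 1 - 2 * n)‖ ≤ D) :
    ‖TT t n a‖ ≤ 2 * D := by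
  have h0 : TT t n a = ∑ k ∈ (Finset.Icc (-(n : ℤ)) n).filter (fun k : ℤ => (n - 5 * k) % 2 = 0),
      (-1 : ℂ) ^ k.natAbs * ee t ^ (k * (5 * k + 1 - 4 * a) / 2).toNat *
      gbz (ee t) n ((n - 5 * k) / 2 + a) +
      ∑ k ∈ (Finset.Icc (-(n : ℤ)) n).filter (fun k : ℤ => (n - 5 * k) % 2 = 1),
      (-1 : ℂ) ^ k.natAbs * ee t ^ (k * (5 * k + 1 - 4 * a) / 2).toNat *
      gbz (ee t) n ((n - 5 * k) / 2 + a) := by
    unfold TT
    rw [← sum_filter_add_sum_filter_not (Finset.Icc (-(n : ℤ)) n)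
      (fun k : ℤ => (n - 5 * k) % 2 = 0)]
    congr 1
    refine sum_congr ?_ fun _ _ => rfl
    refine filter_congr fun k _ => ?_
    omega
  rw [h0]
  refine (norm_add_le _ _).trans ?_
  rw [TT_part t n hn a ha 0 (Or.inl rfl), TT_part t n hn a ha 1 (Or.inr rfl)]
  have := h (3 * (n - 0 + 2 * a)) 0 (Or.inl rfl)
  have := h (3 * (n - 1 + 2 * a)) 1 (Or.inr rfl)
  linarith

/-- the recursion in `m` -/
lemma SS_succ (t : ℝ) (m : ℕ) (r κ : ℤ) (α : ℝ) (h : α = κ - 2 * m) :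
    ‖SS t (m + 1) r α‖ ≤ ‖ZZ t m r κ‖ + ‖ZZ t m (r - 1) (κ - 1)‖ := by
  have h1 : SS t (m + 1) r α = SS t m r α + ee (t * (2 + α) / 5 + t * m) *
      SS t m (r - 1) (α - 1) := by
    unfold SS
    simp only [sum_filter]
    rw [sum_range_succ' _ (m + 1)]
    have h2 : ∑ l ∈ range (m + 1), (if (l : ℤ) ≡ r [ZMOD 5] then
        ee (t * (2 * (l : ℝ) ^ 2 + α * l) / 5) * gb (ee t) m l else 0) =
        ∑ l ∈ range (m + 1 + 1), (if (l : ℤ) ≡ r [ZMOD 5] then
        ee (t * (2 * (l : ℝ) ^ 2 + α * l) / 5) * gb (ee t) m l else 0) := by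
      rw [sum_range_succ _ (m + 1), gb_big _ m (m + 1) (by omega)]
      simp
    rw [h2, sum_range_succ' _ (m + 1), mul_sum]
    have h3 : gb (ee t) (m + 1) 0 = gb (ee t) m 0 := by
      rw [gb]
      cases m <;> rw [gb]
    rw [h3, add_right_comm, ← sum_add_distrib]
    congr 1
    refine sum_congr rfl fun l hl => ?_
    rw [mem_range] at hl
    by_cases hc : ((l + 1 : ℕ) : ℤ) ≡ r [ZMOD 5]
    · have hc' : (l : ℤ) ≡ r - 1 [ZMOD 5] := by
        rw [Int.ModEq] at hc ⊢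
        push_cast at hc
        omega
      rw [if_pos hc, if_pos hc, if_pos hc', gb, ee_pow, mul_add]
      congr 1
      rw [← mul_assoc, ← mul_assoc, ← ee_add, ← ee_add]
      congr 2
      have : ((m - l : ℕ) : ℝ) = (m : ℝ) - l := by
        rw [Nat.cast_sub (by omega)]
      rw [this]
      push_cast
      ring
    · have hc' : ¬ (l : ℤ) ≡ r - 1 [ZMOD 5] := by
        rw [Int.ModEq] at hc ⊢
        push_cast at hc
        omega
      rw [if_neg hc, if_neg hc, if_neg hc']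
      simp
  rw [h1]
  refine (norm_add_le _ _).trans ?_
  rw [norm_mul, ee_norm, one_mul, SS_ZZ t m r κ α h, SS_ZZ t m (r - 1) (κ - 1) (α - 1) (by
    rw [h]; push_cast; ring)]

theorem sch2 : StA → StB → StSCH := by
  intro hA hB t m hm C hC
  have eA : ∀ n, aa (ee t) n = TT t n 0 := by
    intro n
    rw [hA (ee t) n]
    unfold TT
    refine sum_congr rfl fun k _ => ?_
    simp
  have eB : ∀ n, bb (ee t) n = TT t n 1 := by
    intro n
    rw [hB (ee t) n]
    unfold TT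
    refine sum_congr rfl fun k _ => ?_
    rw [show 5 * k + 1 - 4 * 1 = 5 * k - 3 by ring]
  have d1 : ∀ (r η : ℤ), (η = 0 ∨ η = 1) → ‖SS t m r (2 * η - 1 - 2 * m)‖ ≤ C := by
    intro r η hη
    rw [SS_ZZ t m r (2 * η - 1) _ (by push_cast; ring)]
    exact hC _ _ (by omega) (by omega)
  have d2 : ∀ (r η : ℤ), (η = 0 ∨ η = 1) →
      ‖SS t (m + 1) r (2 * η - 1 - 2 * ((m + 1 : ℕ) : ℝ))‖ ≤ 2 * C := by
    intro r η hη
    refine (SS_succ t m r (2 * η - 3) _ (by push_cast; ring)).trans ?_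
    have := hC r (2 * η - 3) (by omega) (by omega)
    have := hC (r - 1) (2 * η - 3 - 1) (by omega) (by omega)
    linarith
  refine ⟨?_, ?_, ?_, ?_⟩
  · rw [eA]; exact TT_le t m hm 0 (Or.inl rfl) d1
  · rw [eB]; exact TT_le t m hm 1 (Or.inr rfl) d1
  · rw [eA]
    refine (TT_le t (m + 1) (by omega) 0 (Or.inl rfl) d2).trans (by linarith)
  · rw [eB]
    refine (TT_le t (m + 1) (by omega) 1 (Or.inr rfl) d2).trans (by linarith)

end Pool.Agent.Y240.RR
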